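import Pool.Agent.Lead.Hd1

namespace Pool.Agent.Results.MP_4cc686_gt.Q12

open Pool.Agent.Lead.Gro Pool.Agent.Lead.Hd

theorem result : ∃ (X Y : Type) (_ : TopologicalSpace X) (_ : TopologicalSpace Y),
    T35Space X ∧ T35Space Y ∧ ∃ φ : Cp X → Cp Y,
      Continuous φ ∧ Function.Surjective φ ∧ IsOpenMap φ ∧ hd X < hd Y :=
  ⟨DA, OnePoint Pool.Agent.Lead.Ak.DR, inferInstance, inferInstance, inferInstance, inferInstance,
    Φ, Φ_cont, Φ_surj, Φ_open, hd_DA ▸ hd_A⟩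

end Pool.Agent.Results.MP_4cc686_gt.Q12
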